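import Pool.Agent.E8helper43.ER.Stm

/-! Project ER, piece EXT. -/

set_option autoImplicit false

namespace Pool.Agent.E8helper64.ER

open Finset Pool.Agent.E8helper43.ER

theorem gram {ι : Type} [Fintype ι] {m N : ℕ} (x : ι → Eu m) (y : ι → Eu N)
    (h : ∀ i j, inner ℝ (x i) (x j) = inner ℝ (y i) (y j)) (c : ι → ℝ) :
    ‖∑ i, c i • x i‖ = ‖∑ i, c i • y i‖ := by
  have h1 : ‖∑ i, c i • x i‖ ^ 2 = ‖∑ i, c i • y i‖ ^ 2 := by
    rw [← real_inner_self_eq_norm_sq, ← real_inner_self_eq_norm_sq, sum_inner, sum_inner]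
    refine sum_congr rfl fun i _ => ?_
    rw [inner_sum, inner_sum]
    refine sum_congr rfl fun j _ => ?_
    rw [real_inner_smul_left, real_inner_smul_right, real_inner_smul_left, real_inner_smul_right,
      h i j]
  exact (pow_left_inj₀ (norm_nonneg _) (norm_nonneg _) two_ne_zero).1 h1

theorem inner_of_dist {ι : Type} {m N : ℕ} (φ : ι → Eu m) (ψ : ι → Eu N)
    (h : ∀ i j, dist (ψ i) (ψ j) = dist (φ i) (φ j)) (i0 i j : ι) :
    inner ℝ (φ i - φ i0) (φ j - φ i0) = inner ℝ (ψ i - ψ i0) (ψ j - ψ i0) := by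
  rw [real_inner_eq_norm_mul_self_add_norm_mul_self_sub_norm_sub_mul_self_div_two,
    real_inner_eq_norm_mul_self_add_norm_mul_self_sub_norm_sub_mul_self_div_two,
    sub_sub_sub_cancel_right, sub_sub_sub_cancel_right, ← dist_eq_norm, ← dist_eq_norm,
    ← dist_eq_norm, ← dist_eq_norm, ← dist_eq_norm, ← dist_eq_norm, h, h, h]

theorem t_EXT : S_EXT := by
  classical
  intro ι _ _ m N φ ψ h
  obtain ⟨i0⟩ := ‹Nonempty ι›
  obtain ⟨T, hT⟩ : ∃ T : (ι → ℝ) →ₗ[ℝ] Eu m, ∀ c, T c = ∑ i, c i • (φ i - φ i0) :=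
    ⟨Fintype.linearCombination ℝ (fun i => φ i - φ i0), fun c => rfl⟩
  obtain ⟨T', hT'⟩ : ∃ T' : (ι → ℝ) →ₗ[ℝ] Eu N, ∀ c, T' c = ∑ i, c i • (ψ i - ψ i0) :=
    ⟨Fintype.linearCombination ℝ (fun i => ψ i - ψ i0), fun c => rfl⟩
  have hn : ∀ c, ‖T c‖ = ‖T' c‖ := by
    intro c
    rw [hT, hT']
    exact gram _ _ (fun i j => inner_of_dist φ ψ h i0 i j) c
  obtain ⟨s, hs⟩ := LinearMap.exists_rightInverse_of_surjective T.rangeRestrict
    (LinearMap.range_rangeRestrict T)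
  have hs' : ∀ x : LinearMap.range T, T (s x) = x := by
    intro x
    have := LinearMap.congr_fun hs x
    exact congrArg Subtype.val this
  obtain ⟨L, hL⟩ : ∃ L : LinearMap.range T →ₗ[ℝ] Eu N, L = T' ∘ₗ s := ⟨_, rfl⟩
  have hLn : ∀ x, ‖L x‖ = ‖x‖ := by
    intro x
    rw [hL, LinearMap.comp_apply, ← hn, hs']
    rfl
  have hLT : ∀ (c : ι → ℝ) (x : LinearMap.range T), (x : Eu m) = T c → L x = T' c := by
    intro c x hx
    rw [hL, LinearMap.comp_apply]
    have h1 : T (s x - c) = 0 := by rw [map_sub, hs', hx, sub_self]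
    have h2 : ‖T' (s x - c)‖ = 0 := by rw [← hn, h1, norm_zero]
    rw [map_sub, norm_eq_zero, sub_eq_zero] at h2
    exact h2
  have hmem : ∀ i, φ i - φ i0 = T (Pi.single i 1) := by
    intro i
    rw [hT, sum_eq_single i]
    · rw [Pi.single_eq_same, one_smul]
    · intro j _ hj
      rw [Pi.single_eq_of_ne hj, zero_smul]
    · intro hi
      exact absurd (mem_univ i) hi
  have hmem' : ∀ i, ψ i - ψ i0 = T' (Pi.single i 1) := by
    intro i
    rw [hT', sum_eq_single i]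
    · rw [Pi.single_eq_same, one_smul]
    · intro j _ hj
      rw [Pi.single_eq_of_ne hj, zero_smul]
    · intro hi
      exact absurd (mem_univ i) hi
  let S := LinearMap.range T
  refine ⟨fun v => app (ψ i0 + L (S.orthogonalProjectionOnto (v - φ i0)))
    ((Sᗮ.orthogonalProjectionOnto (v - φ i0) : Sᗮ) : Eu m), ?_, ?_⟩
  · refine Isometry.of_dist_eq fun v v' => ?_
    have h1 : dist (app (ψ i0 + L (S.orthogonalProjectionOnto (v - φ i0)))
        ((Sᗮ.orthogonalProjectionOnto (v - φ i0) : Sᗮ) : Eu m))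
        (app (ψ i0 + L (S.orthogonalProjectionOnto (v' - φ i0)))
        ((Sᗮ.orthogonalProjectionOnto (v' - φ i0) : Sᗮ) : Eu m)) ^ 2 = dist v v' ^ 2 := by
      rw [dist_app, dist_add_left, dist_eq_norm, ← map_sub, ← map_sub, hLn, dist_eq_norm,
        ← Submodule.coe_sub, ← map_sub, sub_sub_sub_cancel_right, dist_eq_norm,
        Submodule.norm_sq_eq_add_norm_sq_projection (v - v') S]
      rfl
    exact (pow_left_inj₀ dist_nonneg dist_nonneg two_ne_zero).1 h1
  · intro i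
    have hS : φ i - φ i0 ∈ S := ⟨Pi.single i 1, (hmem i).symm⟩
    have h1 : S.orthogonalProjectionOnto (φ i - φ i0) = ⟨φ i - φ i0, hS⟩ :=
      Submodule.orthogonalProjectionOnto_mem_subspace_eq_self (⟨φ i - φ i0, hS⟩ : S)
    have h2 : Sᗮ.orthogonalProjectionOnto (φ i - φ i0) = 0 := by
      apply Submodule.orthogonalProjectionOnto_eq_zero_iff.2
      exact Submodule.le_orthogonal_orthogonal S hS
    show app _ _ = _
    rw [h1, h2, hLT (Pi.single i 1) ⟨φ i - φ i0, hS⟩ (hmem i), ← hmem' i, add_sub_cancel]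
    rfl

end Pool.Agent.E8helper64.ER
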